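import Pool.Agent.H8.ZA.Targets

/-!
# Multiplication by generic linear forms increases the Gauss norm
-/

open MvPolynomial
open Pool.Agent.H8.ZA

namespace Pool.Agent.H31.ZA

section

variable {k : Type} [Field k] {σ : Type} [DecidableEq σ]

theorem coeff_form_mul (q : MvPolynomial σ k) (e : Fin 4 → σ) (ξ : Fin 4 → k) (i0 : Fin 4)
    (γ : σ →₀ ℕ) :
    coeff (γ + Finsupp.single (e i0) 1) ((∑ i, C (ξ i) * X (e i)) * q) =
      ξ i0 * coeff γ q + ∑ i ∈ Finset.univ.erase i0,
        ξ i * (if e i ∈ (γ + Finsupp.single (e i0) 1).support then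
          coeff (γ + Finsupp.single (e i0) 1 - Finsupp.single (e i) 1) q else 0) := by
  rw [Finset.sum_mul, coeff_sum]
  have h1 : ∀ i : Fin 4, coeff (γ + Finsupp.single (e i0) 1) (C (ξ i) * X (e i) * q) =
      ξ i * (if e i ∈ (γ + Finsupp.single (e i0) 1).support then
          coeff (γ + Finsupp.single (e i0) 1 - Finsupp.single (e i) 1) q else 0) := by
    intro i
    rw [mul_assoc, coeff_C_mul, coeff_X_mul']
  rw [Finset.sum_congr rfl fun i _ => h1 i, ← Finset.add_sum_erase _ _ (Finset.mem_univ i0)]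
  congr 1
  rw [if_pos, add_tsub_cancel_right]
  rw [Finsupp.mem_support_iff, Finsupp.add_apply, Finsupp.single_eq_same]
  omega

theorem shift_apply (e : Fin 4 → σ) (he : Function.Injective e) (i0 i : Fin 4) (hi : i ≠ i0)
    (γ : σ →₀ ℕ) :
    (γ + Finsupp.single (e i0) 1 - Finsupp.single (e i) 1 : σ →₀ ℕ) (e i0) = γ (e i0) + 1 := by
  have h : e i ≠ e i0 := fun h => hi (he h)
  rw [Finsupp.tsub_apply, Finsupp.add_apply, Finsupp.single_eq_same,
    Finsupp.single_eq_of_ne (Ne.symm h)]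
  rfl

theorem exponent_le (q : MvPolynomial σ k) (γ : σ →₀ ℕ) (h : coeff γ q ≠ 0) (s : σ) :
    γ s ≤ q.totalDegree := by
  have h1 : γ ∈ q.support := mem_support_iff.2 h
  refine le_trans ?_ (le_totalDegree h1)
  by_cases hs : s ∈ γ.support
  · exact Finset.single_le_sum (f := fun t => γ t) (fun _ _ => Nat.zero_le _) hs
  · rw [Finsupp.notMem_support_iff.1 hs]
    exact Nat.zero_le _

/-- general absolute values -/
theorem form_arch (w : AbsoluteValue k ℝ) (q : MvPolynomial σ k) (e : Fin 4 → σ)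
    (he : Function.Injective e) (ξ : Fin 4 → k) (i0 : Fin 4) (hξ : ∀ i, w (ξ i) ≤ w (ξ i0))
    (δ : ℕ) (hq : q.totalDegree ≤ δ) (γ : σ →₀ ℕ) :
    ∃ γ', (1 / 2 * (1 / 6 : ℝ) ^ δ) * w (ξ i0) * w (coeff γ q) ≤
      w (coeff γ' ((∑ i, C (ξ i) * X (e i)) * q)) := by
  by_cases hγ : coeff γ q = 0
  · refine ⟨0, ?_⟩
    rw [hγ, map_zero, mul_zero]
    exact w.nonneg _
  have hne : q.support.Nonempty := ⟨γ, mem_support_iff.2 hγ⟩
  obtain ⟨γs, hγs, hmax⟩ := Finset.exists_max_image q.support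
    (fun δ => w (coeff δ q) * 6 ^ (δ (e i0))) hne
  have hmax' : ∀ δ : σ →₀ ℕ, w (coeff δ q) * 6 ^ (δ (e i0)) ≤
      w (coeff γs q) * 6 ^ (γs (e i0)) := by
    intro δ
    by_cases hδ : coeff δ q = 0
    · rw [hδ, map_zero, zero_mul]
      exact mul_nonneg (w.nonneg _) (by positivity)
    · exact hmax δ (mem_support_iff.2 hδ)
  have hs0 : coeff γs q ≠ 0 := mem_support_iff.1 hγs
  have hW : 0 ≤ w (coeff γs q) := w.nonneg _
  have hX : 0 ≤ w (ξ i0) := w.nonneg _
  refine ⟨γs + Finsupp.single (e i0) 1, ?_⟩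
  rw [coeff_form_mul]
  set A := ξ i0 * coeff γs q with hA
  set B := ∑ i ∈ Finset.univ.erase i0,
        ξ i * (if e i ∈ (γs + Finsupp.single (e i0) 1).support then
          coeff (γs + Finsupp.single (e i0) 1 - Finsupp.single (e i) 1) q else 0) with hB
  have hBle : w B ≤ 3 * (w (ξ i0) * (w (coeff γs q) / 6)) := by
    refine (w.sum_le _ _).trans ?_
    have hterm : ∀ i ∈ Finset.univ.erase i0, w (ξ i * (if e i ∈
        (γs + Finsupp.single (e i0) 1).support then
          coeff (γs + Finsupp.single (e i0) 1 - Finsupp.single (e i) 1) q else 0)) ≤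
        w (ξ i0) * (w (coeff γs q) / 6) := by
      intro i hi
      have hi' : i ≠ i0 := (Finset.mem_erase.1 hi).1
      rw [map_mul]
      apply mul_le_mul (hξ i) _ (w.nonneg _) hX
      split_ifs with h
      · have h2 := hmax' (γs + Finsupp.single (e i0) 1 - Finsupp.single (e i) 1)
        rw [shift_apply e he i0 i hi', pow_succ] at h2
        have h6 : (0 : ℝ) < 6 ^ (γs (e i0)) := by positivity
        have h3 : w (coeff (γs + Finsupp.single (e i0) 1 - Finsupp.single (e i) 1) q) * 6 *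
            6 ^ (γs (e i0)) ≤ w (coeff γs q) * 6 ^ (γs (e i0)) := by
          calc _ = w (coeff (γs + Finsupp.single (e i0) 1 - Finsupp.single (e i) 1) q) *
              (6 ^ (γs (e i0)) * 6) := by ring
            _ ≤ _ := h2
        have h4 := le_of_mul_le_mul_right h3 h6
        linarith
      · rw [map_zero]
        positivity
    refine (Finset.sum_le_sum hterm).trans ?_
    rw [Finset.sum_const, Finset.card_erase_of_mem (Finset.mem_univ _), Finset.card_univ,
      Fintype.card_fin, nsmul_eq_mul]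
    norm_num
  have hlow : w A - w B ≤ w (A + B) := by
    have := w.le_sub A (-B)
    rw [w.map_neg, sub_neg_eq_add] at this
    exact this
  have hAw : w A = w (ξ i0) * w (coeff γs q) := map_mul _ _ _
  have h5 : 1 / 2 * (w (ξ i0) * w (coeff γs q)) ≤ w (A + B) := by
    nlinarith
  refine le_trans ?_ h5
  have h6 : (1 / 6 : ℝ) ^ δ * w (coeff γ q) ≤ w (coeff γs q) := by
    have h7 := hmax' γ
    have h8 : (1 : ℝ) ≤ 6 ^ (γ (e i0)) := one_le_pow₀ (by norm_num)
    have h9 : (6 : ℝ) ^ (γs (e i0)) ≤ 6 ^ δ :=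
      pow_le_pow_right₀ (by norm_num) ((exponent_le q γs hs0 _).trans hq)
    have h10 : w (coeff γ q) ≤ w (coeff γs q) * 6 ^ δ := by
      calc w (coeff γ q) = w (coeff γ q) * 1 := (mul_one _).symm
        _ ≤ w (coeff γ q) * 6 ^ (γ (e i0)) := mul_le_mul_of_nonneg_left h8 (w.nonneg _)
        _ ≤ _ := h7
        _ ≤ _ := mul_le_mul_of_nonneg_left h9 hW
    have h11 : (0 : ℝ) < 6 ^ δ := by positivity
    rw [one_div, inv_pow]
    rw [inv_mul_le_iff₀ h11]
    linarith
  calc 1 / 2 * (1 / 6 : ℝ) ^ δ * w (ξ i0) * w (coeff γ q)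
      = 1 / 2 * (w (ξ i0) * ((1 / 6 : ℝ) ^ δ * w (coeff γ q))) := by ring
    _ ≤ 1 / 2 * (w (ξ i0) * w (coeff γs q)) := by gcongr

theorem sum_lt_of_na (w : AbsoluteValue k ℝ) (hw : NA w) {ι : Type} (s : Finset ι) (f : ι → k)
    (B : ℝ) (hB : 0 < B) (h : ∀ i ∈ s, w (f i) < B) : w (∑ i ∈ s, f i) < B := by
  classical
  induction s using Finset.induction_on with
  | empty => rw [Finset.sum_empty, map_zero]; exact hB
  | insert a s ha ih =>
    rw [Finset.sum_insert ha]
    refine (hw _ _).trans_lt (max_lt (h a (Finset.mem_insert_self _ _)) ?_)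
    exact ih fun i hi => h i (Finset.mem_insert_of_mem hi)

/-- non-archimedean absolute values -/
theorem form_na (w : AbsoluteValue k ℝ) (hw : NA w) (q : MvPolynomial σ k) (e : Fin 4 → σ)
    (he : Function.Injective e) (ξ : Fin 4 → k) (i0 : Fin 4) (hξ : ∀ i, w (ξ i) ≤ w (ξ i0))
    (hpos : 0 < w (ξ i0)) (γ : σ →₀ ℕ) :
    ∃ γ', w (ξ i0) * w (coeff γ q) ≤ w (coeff γ' ((∑ i, C (ξ i) * X (e i)) * q)) := by
  by_cases hγ : coeff γ q = 0
  · refine ⟨0, ?_⟩
    rw [hγ, map_zero, mul_zero]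
    exact w.nonneg _
  have hne : q.support.Nonempty := ⟨γ, mem_support_iff.2 hγ⟩
  obtain ⟨γ1, hγ1, hmax⟩ := Finset.exists_max_image q.support (fun δ => w (coeff δ q)) hne
  set M := w (coeff γ1 q) with hM
  have hM0 : 0 < M := w.pos (mem_support_iff.1 hγ1)
  have hmax' : ∀ δ : σ →₀ ℕ, w (coeff δ q) ≤ M := by
    intro δ
    by_cases hδ : coeff δ q = 0
    · rw [hδ, map_zero]
      exact hM0.le
    · exact hmax δ (mem_support_iff.2 hδ)
  set S := q.support.filter fun δ => w (coeff δ q) = M with hS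
  have hSne : S.Nonempty := ⟨γ1, Finset.mem_filter.2 ⟨hγ1, rfl⟩⟩
  obtain ⟨γs, hγs, hmax2⟩ := Finset.exists_max_image S (fun δ => δ (e i0)) hSne
  have hs1 : w (coeff γs q) = M := (Finset.mem_filter.1 hγs).2
  have hlt : ∀ δ : σ →₀ ℕ, γs (e i0) < δ (e i0) → w (coeff δ q) < M := by
    intro δ hδ
    refine lt_of_le_of_ne (hmax' δ) fun h => ?_
    have h1 : coeff δ q ≠ 0 := by
      intro h0
      rw [h0, map_zero] at h
      exact hM0.ne h
    have h2 := hmax2 δ (Finset.mem_filter.2 ⟨mem_support_iff.2 h1, h⟩)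
    exact absurd hδ (not_lt.2 h2)
  refine ⟨γs + Finsupp.single (e i0) 1, ?_⟩
  rw [coeff_form_mul]
  set A := ξ i0 * coeff γs q with hA
  set B := ∑ i ∈ Finset.univ.erase i0,
        ξ i * (if e i ∈ (γs + Finsupp.single (e i0) 1).support then
          coeff (γs + Finsupp.single (e i0) 1 - Finsupp.single (e i) 1) q else 0) with hB
  have hBlt : w B < w (ξ i0) * M := by
    apply sum_lt_of_na w hw _ _ _ (mul_pos hpos hM0)
    intro i hi
    have hi' : i ≠ i0 := (Finset.mem_erase.1 hi).1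
    rw [map_mul]
    split_ifs with h
    · have h1 := hlt (γs + Finsupp.single (e i0) 1 - Finsupp.single (e i) 1) (by
        rw [shift_apply e he i0 i hi']; omega)
      calc _ ≤ w (ξ i0) * w (coeff (γs + Finsupp.single (e i0) 1 - Finsupp.single (e i) 1) q) :=
            mul_le_mul_of_nonneg_right (hξ i) (w.nonneg _)
        _ < w (ξ i0) * M := mul_lt_mul_of_pos_left h1 hpos
    · rw [map_zero, mul_zero]
      exact mul_pos hpos hM0
  have hAw : w A = w (ξ i0) * M := by rw [hA, map_mul, hs1]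
  have h1 : w A ≤ max (w (A + B)) (w B) := by
    have := hw (A + B) (-B)
    rwa [add_neg_cancel_right, w.map_neg] at this
  have h2 : w A ≤ w (A + B) := by
    rcases le_max_iff.1 h1 with h | h
    · exact h
    · rw [hAw] at h
      exact absurd hBlt (not_lt.2 h)
  calc w (ξ i0) * w (coeff γ q) ≤ w (ξ i0) * M :=
        mul_le_mul_of_nonneg_left (hmax' γ) hpos.le
    _ = w A := hAw.symm
    _ ≤ _ := h2

end

section

variable {k : Type} [Field k]

theorem Lf_eq (N : ℕ) (x : Fin 3 → k) (j : Fin N) :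
    Lf N x j = ∑ i : Fin 4, C ((Fin.cons 1 x : Fin 4 → k) i) * X (j, i) := by
  rw [Fin.sum_univ_succ]
  unfold Lf
  simp only [Fin.cons_zero, Fin.cons_succ, map_one, one_mul]

theorem exists_max (w : AbsoluteValue k ℝ) (x : Fin 3 → k) :
    ∃ i0 : Fin 4, w ((Fin.cons 1 x : Fin 4 → k) i0) = sz w x ∧
      ∀ i, w ((Fin.cons 1 x : Fin 4 → k) i) ≤ w ((Fin.cons 1 x : Fin 4 → k) i0) := by
  obtain ⟨i0, -, h⟩ := Finset.exists_max_image (Finset.univ : Finset (Fin 4))
    (fun i => w ((Fin.cons 1 x : Fin 4 → k) i)) Finset.univ_nonempty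
  refine ⟨i0, le_antisymm ?_ ?_, fun i => h i (Finset.mem_univ i)⟩
  · refine Fin.cases ?_ (fun i => ?_) i0
    · rw [Fin.cons_zero, map_one]
      exact one_le_sz w x
    · rw [Fin.cons_succ]
      exact le_sz w x i
  · apply sz_le
    · have := h 0 (Finset.mem_univ _)
      rwa [Fin.cons_zero, map_one] at this
    · intro i
      have := h i.succ (Finset.mem_univ _)
      rwa [Fin.cons_succ] at this

open Classical in
/-- one linear form -/
theorem one_form (w : AbsoluteValue k ℝ) (N δ : ℕ) (x : Fin 3 → k) (j : Fin N)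
    (q : MvPolynomial (Fin N × Fin 4) k) (hq : q.totalDegree ≤ δ) (γ : Fin N × Fin 4 →₀ ℕ) :
    ∃ γ', (if NA w then 1 else 1 / 2 * (1 / 6 : ℝ) ^ δ) * sz w x * w (coeff γ q) ≤
      w (coeff γ' (Lf N x j * q)) := by
  obtain ⟨i0, h0, hi⟩ := exists_max w x
  have he : Function.Injective fun i : Fin 4 => (j, i) := fun a b h => (Prod.mk.inj h).2
  rw [Lf_eq, ← h0]
  split_ifs with hw
  · obtain ⟨γ', h⟩ := form_na w hw q (fun i => (j, i)) he (Fin.cons 1 x) i0 hi
      (by rw [h0]; exact sz_pos w x) γ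
    exact ⟨γ', by rw [one_mul]; exact h⟩
  · exact form_arch w q (fun i => (j, i)) he (Fin.cons 1 x) i0 hi δ hq γ

theorem totalDegree_Lf_le (N : ℕ) (x : Fin 3 → k) (j : Fin N) : (Lf N x j).totalDegree ≤ 1 := by
  rw [Lf_eq]
  apply (totalDegree_finsetSum _ _).trans
  apply Finset.sup_le
  intro i _
  apply (totalDegree_mul _ _).trans
  rw [totalDegree_C, zero_add]
  exact (totalDegree_X _).le

theorem totalDegree_prod_le (N : ℕ) (x : Fin 3 → k) (s : Finset (Fin N)) :
    (∏ j ∈ s, Lf N x j).totalDegree ≤ s.card := by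
  apply (totalDegree_finsetProd _ _).trans
  refine (Finset.sum_le_sum fun i _ => totalDegree_Lf_le N x i).trans ?_
  rw [Finset.sum_const, smul_eq_mul, mul_one]

open Classical in
theorem many_forms (w : AbsoluteValue k ℝ) (N δ : ℕ) (x : Fin 3 → k)
    (q : MvPolynomial (Fin N × Fin 4) k) (hq : q.totalDegree ≤ δ) (γ : Fin N × Fin 4 →₀ ℕ)
    (s : Finset (Fin N)) :
    ∃ γ', (if NA w then 1 else 1 / 2 * (1 / 6 : ℝ) ^ (δ + N)) ^ s.card * sz w x ^ s.card *
      w (coeff γ q) ≤ w (coeff γ' ((∏ j ∈ s, Lf N x j) * q)) := by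
  induction s using Finset.induction_on with
  | empty =>
    refine ⟨γ, ?_⟩
    rw [Finset.card_empty, pow_zero, pow_zero, one_mul, one_mul, Finset.prod_empty, one_mul]
  | insert a s ha ih =>
    obtain ⟨γ1, h1⟩ := ih
    have hdeg : ((∏ j ∈ s, Lf N x j) * q).totalDegree ≤ δ + N := by
      refine (totalDegree_mul _ _).trans ?_
      have h2 := totalDegree_prod_le N x s
      have h3 : s.card ≤ N := by
        have := s.card_le_univ
        rwa [Fintype.card_fin] at this
      omega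
    obtain ⟨γ2, h2⟩ := one_form w N (δ + N) x a _ hdeg γ1
    refine ⟨γ2, ?_⟩
    rw [Finset.card_insert_of_notMem ha, Finset.prod_insert ha, mul_assoc (Lf N x a)]
    refine le_trans ?_ h2
    set c : ℝ := if NA w then 1 else 1 / 2 * (1 / 6 : ℝ) ^ (δ + N) with hc
    have hc0 : 0 ≤ c := by
      rw [hc]
      split_ifs <;> positivity
    have hs : 0 ≤ sz w x := (sz_pos w x).le
    calc c ^ (s.card + 1) * sz w x ^ (s.card + 1) * w (coeff γ q)
        = c * sz w x * (c ^ s.card * sz w x ^ s.card * w (coeff γ q)) := by ring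
      _ ≤ c * sz w x * w (coeff γ1 ((∏ j ∈ s, Lf N x j) * q)) :=
          mul_le_mul_of_nonneg_left h1 (mul_nonneg hc0 hs)

end

theorem pf_GNO : T_GNO := by
  classical
  intro k _ N δ w
  refine ⟨(if NA w then 1 else 1 / 2 * (1 / 6 : ℝ) ^ (δ + N)) ^ N, ?_, ?_, ?_, ?_⟩
  · apply pow_pos
    split_ifs <;> positivity
  · apply pow_le_one₀
    · split_ifs <;> positivity
    · split_ifs
      · exact le_rfl
      · have : (1 / 6 : ℝ) ^ (δ + N) ≤ 1 := pow_le_one₀ (by norm_num) (by norm_num)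
        linarith
  · intro hw
    rw [if_pos hw, one_pow]
  · intro x q hq γ
    obtain ⟨γ', h⟩ := many_forms w N δ x q hq γ Finset.univ
    rw [Finset.card_univ, Fintype.card_fin] at h
    exact ⟨γ', h⟩

end Pool.Agent.H31.ZA
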