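import Pool.Agent.H8.ZA.Targets

/-!
# Four semi-invariants of an automorphism give an invariant rational function
-/

open MvPolynomial
open Pool.Agent.H8.ZA
open Pool.Agent.H12.ZD (NoInv)

namespace Pool.Agent.H31.ZA

section

variable {k : Type} [Field k] [CharZero k]

theorem totalDegree_pderiv_lt (P : Po k) (j : Fin 3) (h : pderiv j P ≠ 0) :
    (pderiv j P).totalDegree < P.totalDegree := by
  obtain ⟨m, hm, hdeg⟩ := Finset.exists_mem_eq_sup (pderiv j P).support
    (support_nonempty.2 h) (fun s => s.sum fun _ e => e)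
  have h1 : (pderiv j P).totalDegree = m.sum fun _ e => e := hdeg
  rw [h1]
  rw [mem_support_iff, coeff_pderiv] at hm
  have h2 : coeff (m + Finsupp.single j 1) P ≠ 0 := left_ne_zero_of_mul hm
  have h3 := le_totalDegree (mem_support_iff.2 h2)
  rw [Finsupp.sum_add_index' (fun _ => rfl) (fun _ _ _ => rfl),
    Finsupp.sum_single_index rfl] at h3
  omega

theorem eq_C_of_pderiv (P : Po k) (h : ∀ j, pderiv j P = 0) : P = C (coeff 0 P) := by
  ext m
  rw [coeff_C]
  split_ifs with h0
  · rw [h0]
  · have h1 : ∃ j, m j ≠ 0 := by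
      by_contra hcon
      push Not at hcon
      exact h0 (Finsupp.ext fun j => (hcon j).symm)
    obtain ⟨j, hj⟩ := h1
    have h2 : m = (m - Finsupp.single j 1) + Finsupp.single j 1 := by
      rw [tsub_add_cancel_of_le]
      rw [Finsupp.single_le_iff]
      omega
    have h3 := coeff_pderiv P (i := j) (m - Finsupp.single j 1)
    rw [h j, coeff_zero, ← h2] at h3
    rcases mul_eq_zero.1 h3.symm with h4 | h4
    · exact h4
    · exfalso
      exact Nat.cast_add_one_ne_zero _ h4

theorem not_dvd_pderiv (P : Po k) (hP : Irreducible P) (h : ∀ j, P ∣ pderiv j P) : False := by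
  have h1 : ∀ j, pderiv j P = 0 := by
    intro j
    by_contra hne
    obtain ⟨R, hR⟩ := h j
    have hR0 : R ≠ 0 := by
      rintro rfl
      rw [mul_zero] at hR
      exact hne hR
    have h2 := totalDegree_pderiv_lt P j hne
    rw [hR, totalDegree_mul_of_isDomain hP.ne_zero hR0] at h2
    omega
  have h3 := eq_C_of_pderiv P h1
  by_cases h0 : coeff 0 P = 0
  · rw [h0, C_0] at h3
    exact hP.ne_zero h3
  · apply hP.not_isUnit
    rw [h3]
    exact (isUnit_iff_ne_zero.2 h0).map C

theorem pderiv_aeval (f : Tup k) (P : Po k) (j : Fin 3) :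
    pderiv j (aeval f P) = ∑ l, aeval f (pderiv l P) * pderiv j (f l) := by
  classical
  induction P using MvPolynomial.induction_on with
  | C a =>
    rw [aeval_C, algebraMap_eq, pderiv_C]
    symm
    apply Finset.sum_eq_zero
    intro l _
    rw [pderiv_C, map_zero, zero_mul]
  | add p q hp hq =>
    rw [map_add, map_add, hp, hq, ← Finset.sum_add_distrib]
    apply Finset.sum_congr rfl
    intro l _
    rw [map_add, map_add, add_mul]
  | mul_X p i hp =>
    rw [map_mul, aeval_X, pderiv_mul, hp]
    have h1 : ∀ l, aeval f (pderiv l (p * X i)) * pderiv j (f l) =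
        aeval f (pderiv l p) * pderiv j (f l) * f i +
          aeval f p * (if l = i then pderiv j (f l) else 0) := by
      intro l
      rw [pderiv_mul, map_add, map_mul, map_mul, aeval_X, pderiv_X]
      by_cases hl : i = l
      · subst hl
        rw [Pi.single_eq_same, map_one, if_pos rfl]
        ring
      · rw [Pi.single_eq_of_ne hl, map_zero, if_neg (Ne.symm hl)]
        ring
    rw [Finset.sum_congr rfl fun l _ => h1 l, Finset.sum_add_distrib, ← Finset.sum_mul,
      ← Finset.mul_sum, Finset.sum_ite_eq' Finset.univ i, if_pos (Finset.mem_univ i)]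

/-- the relation with constant coefficients is impossible -/
theorem no_const_relation (P : Fin 4 → Po k) (hirr : ∀ i, Irreducible (P i))
    (hass : ∀ i j, i ≠ j → ¬ Associated (P i) (P j)) (a : Fin 4 → k) (i1 : Fin 4)
    (ha : a i1 ≠ 0)
    (h : ∀ j, ∑ i, C (a i) * pderiv j (P i) * ∏ i' ∈ Finset.univ.erase i, P i' = 0) : False := by
  classical
  apply not_dvd_pderiv (P i1) (hirr i1)
  intro j
  have hprime : Prime (P i1) := (hirr i1).prime
  have h1 := h j
  rw [← Finset.add_sum_erase _ _ (Finset.mem_univ i1)] at h1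
  have h2 : P i1 ∣ ∑ i ∈ Finset.univ.erase i1, C (a i) * pderiv j (P i) *
      ∏ i' ∈ Finset.univ.erase i, P i' := by
    apply Finset.dvd_sum
    intro i hi
    apply Dvd.dvd.mul_left
    apply Finset.dvd_prod_of_mem
    rw [Finset.mem_erase]
    exact ⟨Ne.symm (Finset.mem_erase.1 hi).1, Finset.mem_univ _⟩
  have h3 : P i1 ∣ C (a i1) * pderiv j (P i1) * ∏ i' ∈ Finset.univ.erase i1, P i' := by
    rw [eq_neg_of_add_eq_zero_left h1]
    exact (dvd_neg).2 h2
  rcases hprime.dvd_or_dvd h3 with h4 | h4
  · rcases hprime.dvd_or_dvd h4 with h5 | h5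
    · exfalso
      apply hprime.not_isUnit
      exact isUnit_of_dvd_unit h5 ((isUnit_iff_ne_zero.2 ha).map C)
    · exact h5
  · exfalso
    obtain ⟨i', hi', h5⟩ := (hprime.dvd_finsetProd_iff _).1 h4
    have h6 := (hirr i1).associated_of_dvd (hirr i') h5
    exact hass i1 i' (Ne.symm (Finset.mem_erase.1 hi').1) h6

end

section

variable {k : Type} [Field k]

abbrev FK (k : Type) [Field k] : Type := FractionRing (Po k)

/-- the endomorphism of the field of fractions -/
noncomputable def sig {f f' : Tup k} (h : Inv f f') : FK k →+* FK k :=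
  IsFractionRing.map (A := Po k) (B := Po k) (K := FK k) (L := FK k)
    (j := (aeval f : Po k →ₐ[k] Po k).toRingHom) h.injective

theorem sig_algebraMap {f f' : Tup k} (h : Inv f f') (p : Po k) :
    sig h (algebraMap (Po k) (FK k) p) = algebraMap (Po k) (FK k) (aeval f p) := by
  unfold sig IsFractionRing.map
  rw [IsLocalization.map_eq]
  rfl

theorem alg_inj : Function.Injective (algebraMap (Po k) (FK k)) := IsFractionRing.injective _ _

theorem alg_ne {p : Po k} (h : p ≠ 0) : algebraMap (Po k) (FK k) p ≠ 0 := by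
  intro h0
  exact h (alg_inj (by rw [h0, map_zero]))

theorem const_of_fixed {f f' : Tup k} (h : Inv f f') (hn : NoInv f) (y : FK k)
    (hy : sig h y = y) : ∃ c : k, y = algebraMap (Po k) (FK k) (C c) := by
  obtain ⟨p, q, hq, hpq⟩ := IsFractionRing.div_surjective (A := Po k) y
  have hq0 : q ≠ 0 := nonZeroDivisors.ne_zero hq
  have hq1 : aeval f q ≠ 0 := by
    intro h0
    exact hq0 (h.injective (by rw [h0, map_zero]))
  rw [← hpq, map_div₀, sig_algebraMap, sig_algebraMap, div_eq_div_iff (alg_ne hq1) (alg_ne hq0),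
    ← map_mul, ← map_mul] at hy
  have h1 : aeval f p * q = aeval f q * p := by
    rw [alg_inj hy, mul_comm]
  unfold NoInv at hn
  by_contra hcon
  push Not at hcon
  apply hn
  refine ⟨p, q, hq0, ?_, h1⟩
  intro c hc
  apply hcon c
  rw [← hpq, hc, map_mul, mul_div_assoc, div_self (alg_ne hq0), mul_one]

end

theorem pf_PSF : T_PSF := by
  classical
  intro k _ _ f f' P c hInv hirr hass hc hno
  set ι := algebraMap (Po k) (FK k) with hι
  have hP0 : ∀ i, P i ≠ 0 := fun i => (hirr i).ne_zero
  have hc0 : ∀ i, c i ≠ 0 := by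
    intro i h0
    have h1 := hc i
    rw [h0, C_0, zero_mul] at h1
    exact hP0 i (hInv.injective (by rw [h1, map_zero]))
  set W : Fin 4 → Fin 3 → FK k := fun i j => ι (pderiv j (P i)) / ι (P i) with hW
  -- transformation rule
  have hrule : ∀ i j, ∑ l, sig hInv (W i l) * ι (pderiv j (f l)) = W i j := by
    intro i j
    have h1 : ∀ l, sig hInv (W i l) * ι (pderiv j (f l)) =
        ι (aeval f (pderiv l (P i)) * pderiv j (f l)) / ι (C (c i) * P i) := by
      intro l
      rw [hW]
      simp only
      rw [map_div₀, sig_algebraMap, sig_algebraMap, hc i, map_mul ι (aeval f _), div_mul_eq_mul_div]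
    rw [Finset.sum_congr rfl fun l _ => h1 l, ← Finset.sum_div, ← map_sum, ← pderiv_aeval, hc i,
      pderiv_C_mul, map_mul, map_mul]
    rw [hW]
    simp only
    rw [mul_div_mul_left]
    exact alg_ne fun h0 => hc0 i (C_eq_zero.1 h0)
  -- relations
  let V : Submodule (FK k) (Fin 4 → FK k) :=
    { carrier := {φ | ∀ j, ∑ i, φ i * W i j = 0}
      zero_mem' := by
        intro j
        apply Finset.sum_eq_zero
        intro i _
        rw [Pi.zero_apply, zero_mul]
      add_mem' := by
        intro a b ha hb j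
        simp only [Pi.add_apply, add_mul, Finset.sum_add_distrib]
        rw [ha j, hb j, add_zero]
      smul_mem' := by
        intro t a ha j
        simp only [Pi.smul_apply, smul_eq_mul, mul_assoc]
        rw [← Finset.mul_sum, ha j, mul_zero] }
  have hmem : ∀ φ, φ ∈ V ↔ ∀ j, ∑ i, φ i * W i j = 0 := fun φ => Iff.rfl
  have hex : ∃ φ ∈ V, φ ≠ 0 := by
    let T : (Fin 4 → FK k) →ₗ[FK k] (Fin 3 → FK k) :=
      { toFun := fun φ j => ∑ i, φ i * W i j
        map_add' := by
          intro a b
          funext j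
          simp only [Pi.add_apply, add_mul, Finset.sum_add_distrib]
        map_smul' := by
          intro t a
          funext j
          simp only [Pi.smul_apply, smul_eq_mul, mul_assoc, RingHom.id_apply]
          rw [← Finset.mul_sum] }
    have hker : LinearMap.ker T ≠ ⊥ := by
      apply LinearMap.ker_ne_bot_of_finrank_lt
      simp
    obtain ⟨φ, hφ, h0⟩ := (Submodule.ne_bot_iff _).1 hker
    exact ⟨φ, fun j => congrFun (LinearMap.mem_ker.1 hφ) j, h0⟩
  -- minimal support
  have hex2 : ∃ n : ℕ, ∃ φ ∈ V, φ ≠ 0 ∧ (Finset.univ.filter fun i => φ i ≠ 0).card = n := by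
    obtain ⟨φ, h1, h2⟩ := hex
    exact ⟨_, φ, h1, h2, rfl⟩
  obtain ⟨φ, hφV, hφ0, hφc⟩ := Nat.find_spec hex2
  have hmin : ∀ ψ ∈ V, ψ ≠ 0 →
      (Finset.univ.filter fun i => φ i ≠ 0).card ≤ (Finset.univ.filter fun i => ψ i ≠ 0).card := by
    intro ψ h1 h2
    rw [hφc]
    exact Nat.find_min' hex2 ⟨ψ, h1, h2, rfl⟩
  obtain ⟨i1, hi1⟩ : ∃ i, φ i ≠ 0 := by
    by_contra hcon
    push Not at hcon
    exact hφ0 (funext hcon)
  -- normalisation
  set θ : Fin 4 → FK k := (φ i1)⁻¹ • φ with hθ
  have hθV : θ ∈ V := V.smul_mem _ hφV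
  have hθ1 : θ i1 = 1 := by
    rw [hθ, Pi.smul_apply, smul_eq_mul, inv_mul_cancel₀ hi1]
  have hθ0 : ∀ i, φ i = 0 → θ i = 0 := by
    intro i h
    rw [hθ, Pi.smul_apply, h, smul_zero]
  -- the transformed relation
  have hsV : (fun i => sig hInv (θ i)) ∈ V := by
    intro j
    have h1 : ∀ i, sig hInv (θ i) * W i j =
        ∑ l, sig hInv (θ i * W i l) * ι (pderiv j (f l)) := by
      intro i
      rw [← hrule i j, Finset.mul_sum]
      apply Finset.sum_congr rfl
      intro l _
      rw [map_mul, mul_assoc]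
    rw [Finset.sum_congr rfl fun i _ => h1 i, Finset.sum_comm]
    apply Finset.sum_eq_zero
    intro l _
    rw [← Finset.sum_mul, ← map_sum, hθV l, map_zero, zero_mul]
  have hfix : ∀ i, sig hInv (θ i) = θ i := by
    by_contra hcon
    have hne : (fun i => sig hInv (θ i)) - θ ≠ 0 := by
      intro h0
      apply hcon
      intro i
      have := congrFun h0 i
      rw [Pi.sub_apply, Pi.zero_apply] at this
      exact sub_eq_zero.1 this
    have h1 := hmin _ (V.sub_mem hsV hθV) hne
    have h2 : (Finset.univ.filter fun i => ((fun i => sig hInv (θ i)) - θ) i ≠ 0) ⊆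
        (Finset.univ.filter fun i => φ i ≠ 0).erase i1 := by
      intro i hi
      rw [Finset.mem_filter] at hi
      rw [Finset.mem_erase, Finset.mem_filter]
      refine ⟨?_, Finset.mem_univ _, ?_⟩
      · rintro rfl
        apply hi.2
        rw [Pi.sub_apply, hθ1, map_one, sub_self]
      · intro h0
        apply hi.2
        rw [Pi.sub_apply, hθ0 i h0, map_zero, sub_self]
    have h3 := Finset.card_le_card h2
    have hmem1 : i1 ∈ Finset.univ.filter fun i => φ i ≠ 0 :=
      Finset.mem_filter.2 ⟨Finset.mem_univ _, hi1⟩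
    rw [Finset.card_erase_of_mem hmem1] at h3
    have h4 : 0 < (Finset.univ.filter fun i => φ i ≠ 0).card := Finset.card_pos.2 ⟨i1, hmem1⟩
    omega
  -- constants
  choose a ha using fun i => const_of_fixed hInv hno (θ i) (hfix i)
  have ha1 : a i1 ≠ 0 := by
    intro h0
    have := ha i1
    rw [hθ1, h0, C_0, map_zero] at this
    exact one_ne_zero this
  apply no_const_relation P hirr hass a i1 ha1
  intro j
  apply alg_inj (k := k)
  rw [map_zero, map_sum]
  have h1 := hθV j
  have h2 : ∀ i, ι (C (a i) * pderiv j (P i) * ∏ i' ∈ Finset.univ.erase i, P i') =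
      θ i * W i j * ∏ i', ι (P i') := by
    intro i
    rw [map_mul, map_mul, map_prod, ← ha i, hW]
    simp only
    rw [← Finset.mul_prod_erase Finset.univ (fun i' => ι (P i')) (Finset.mem_univ i)]
    have h3 : ι (P i) ≠ 0 := alg_ne (hP0 i)
    field_simp
  rw [Finset.sum_congr rfl fun i _ => h2 i, ← Finset.sum_mul, h1, zero_mul]

end Pool.Agent.H31.ZA
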